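import Mathlib

/-!
# A Lipschitz homeomorphism of `ℓ₂(Γ)` which is nowhere Gateaux differentiable

For an uncountable set `Γ` the map `φ(x)_γ = x_γ + |x_γ| / 2` is a Lipschitz homeomorphism of
`ℓ₂(Γ)` onto itself.  Every `x` has a zero coordinate `γ`, and `φ` has no derivative at `x` in the
direction `e_γ`.
-/

open Filter Topology
open scoped ENNReal

namespace Pool.Agent.Results.MP_714461_an.NowhereGateaux

universe u v w

/-- Reflexivity: the canonical map into the bidual is onto. -/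
def Reflexive (Y : Type v) [NormedAddCommGroup Y] [NormedSpace ℝ Y] : Prop :=
  Function.Surjective (NormedSpace.inclusionInDoubleDual ℝ Y)

/-- `Y` is finitely representable in `X`: every finite dimensional subspace of `Y` embeds linearly
in `X` with distortion at most `1 + ε`, for every `ε > 0`. -/
def FinitelyRepresentable (Y : Type v) [NormedAddCommGroup Y] [NormedSpace ℝ Y]
    (X : Type u) [NormedAddCommGroup X] [NormedSpace ℝ X] : Prop :=
  ∀ E : Submodule ℝ Y, FiniteDimensional ℝ E → ∀ ε : ℝ, 0 < ε →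
    ∃ T : E →ₗ[ℝ] X, ∀ y : E, ‖y‖ ≤ ‖T y‖ ∧ ‖T y‖ ≤ (1 + ε) * ‖y‖

/-- Superreflexivity: every Banach space finitely representable in `X` is reflexive. -/
def SuperReflexive (X : Type u) [NormedAddCommGroup X] [NormedSpace ℝ X] : Prop :=
  ∀ (Y : Type v) [NormedAddCommGroup Y] [NormedSpace ℝ Y] [CompleteSpace Y],
    FinitelyRepresentable Y X → Reflexive Y

/-- `φ` is Gateaux differentiable at `x₀`: some bounded linear operator `T` satisfies
`(φ (x₀ + t h) - φ x₀) / t → T h` in norm as `t → 0`, for every direction `h`. -/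
def GateauxDifferentiableAt {X : Type u} {Y : Type v} [NormedAddCommGroup X] [NormedSpace ℝ X]
    [NormedAddCommGroup Y] [NormedSpace ℝ Y] (φ : X → Y) (x₀ : X) : Prop :=
  ∃ T : X →L[ℝ] Y, ∀ h : X,
    Tendsto (fun t : ℝ => t⁻¹ • (φ (x₀ + t • h) - φ x₀)) (𝓝[≠] 0) (𝓝 (T h))

/-- `φ` is a Lipschitz homeomorphism of `X` onto `Y`: a bijection such that `φ` and its inverse are
Lipschitz. -/
def IsLipschitzHomeo {X : Type u} {Y : Type v} [NormedAddCommGroup X] [NormedAddCommGroup Y]
    (φ : X ≃ Y) : Prop :=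
  (∃ K : NNReal, LipschitzWith K φ) ∧ ∃ K : NNReal, LipschitzWith K φ.symm

theorem reflexive_of_inner (H : Type u) [NormedAddCommGroup H] [InnerProductSpace ℝ H]
    [CompleteSpace H] : Reflexive H := by
  intro ξ
  let g : H →L[ℝ] ℝ := LinearMap.mkContinuous
    { toFun := fun y => ξ (InnerProductSpace.toDual ℝ H y)
      map_add' := fun y z => by simp
      map_smul' := fun c y => by simp } ‖ξ‖ (fun y => by
        have := ξ.le_opNorm (InnerProductSpace.toDual ℝ H y)
        simpa using this)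
  obtain ⟨x, hx⟩ := (InnerProductSpace.toDual ℝ H).surjective g
  refine ⟨x, ?_⟩
  ext f
  obtain ⟨y, rfl⟩ := (InnerProductSpace.toDual ℝ H).surjective f
  have h1 : g y = ξ (InnerProductSpace.toDual ℝ H y) := rfl
  rw [NormedSpace.dual_def, ← h1, ← hx]
  simp [InnerProductSpace.toDual_apply_apply, real_inner_comm]

theorem parallelogram_of_finitelyRepresentable (Y : Type v) [NormedAddCommGroup Y]
    [NormedSpace ℝ Y] (H : Type u) [NormedAddCommGroup H] [InnerProductSpace ℝ H]
    (h : FinitelyRepresentable Y H) (x y : Y) :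
    ‖x + y‖ * ‖x + y‖ + ‖x - y‖ * ‖x - y‖ ≤ 2 * (‖x‖ * ‖x‖ + ‖y‖ * ‖y‖) := by
  set E : Submodule ℝ Y := Submodule.span ℝ {x, y} with hE
  have hfd : FiniteDimensional ℝ E := FiniteDimensional.span_of_finite ℝ (by simp)
  have hx : x ∈ E := Submodule.subset_span (by simp)
  have hy : y ∈ E := Submodule.subset_span (by simp)
  have key : ∀ ε : ℝ, 0 < ε → ‖x + y‖ * ‖x + y‖ + ‖x - y‖ * ‖x - y‖ ≤
      (1 + ε) ^ 2 * (2 * (‖x‖ * ‖x‖ + ‖y‖ * ‖y‖)) := by
    intro ε hε
    obtain ⟨T, hT⟩ := h E hfd ε hε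
    set a : E := ⟨x, hx⟩ with ha
    set b : E := ⟨y, hy⟩ with hb
    have e1 : ‖x + y‖ ≤ ‖T a + T b‖ := by
      have := (hT (a + b)).1
      rw [map_add] at this
      exact this
    have e2 : ‖x - y‖ ≤ ‖T a - T b‖ := by
      have := (hT (a - b)).1
      rw [map_sub] at this
      exact this
    have e3 : ‖T a‖ ≤ (1 + ε) * ‖x‖ := (hT a).2
    have e4 : ‖T b‖ ≤ (1 + ε) * ‖y‖ := (hT b).2
    have par := parallelogram_law_with_norm ℝ (T a) (T b)
    have m1 := mul_self_le_mul_self (norm_nonneg _) e1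
    have m2 := mul_self_le_mul_self (norm_nonneg _) e2
    have m3 := mul_self_le_mul_self (norm_nonneg _) e3
    have m4 := mul_self_le_mul_self (norm_nonneg _) e4
    nlinarith [m1, m2, m3, m4, par]
  have hlim : Tendsto (fun ε : ℝ => (1 + ε) ^ 2 * (2 * (‖x‖ * ‖x‖ + ‖y‖ * ‖y‖))) (𝓝[>] 0)
      (𝓝 ((1 + 0) ^ 2 * (2 * (‖x‖ * ‖x‖ + ‖y‖ * ‖y‖)))) := by
    have : Continuous (fun ε : ℝ => (1 + ε) ^ 2 * (2 * (‖x‖ * ‖x‖ + ‖y‖ * ‖y‖))) := by fun_prop
    exact (this.tendsto 0).mono_left nhdsWithin_le_nhds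
  have := ge_of_tendsto hlim (by
    filter_upwards [self_mem_nhdsWithin] with ε hε
    exact key ε hε)
  simpa using this

theorem superReflexive_of_inner (H : Type u) [NormedAddCommGroup H] [InnerProductSpace ℝ H] :
    SuperReflexive.{u, v} H := by
  intro Y _ _ _ hY
  have h1 := parallelogram_of_finitelyRepresentable Y H hY
  have h2 : ∀ x y : Y, ‖x + y‖ * ‖x + y‖ + ‖x - y‖ * ‖x - y‖ = 2 * (‖x‖ * ‖x‖ + ‖y‖ * ‖y‖) := by
    intro x y
    refine le_antisymm (h1 x y) ?_
    have := h1 (x + y) (x - y)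
    have e1 : x + y + (x - y) = (2 : ℝ) • x := by module
    have e2 : x + y - (x - y) = (2 : ℝ) • y := by module
    rw [e1, e2, norm_smul, norm_smul] at this
    norm_num at this
    nlinarith [this]
  let _ : InnerProductSpace ℝ Y := InnerProductSpace.ofNorm ℝ h2
  exact reflexive_of_inner Y

section main
variable {ι : Type u}

/-- The Hilbert space `ℓ₂(ι)` of square summable real families. -/
abbrev Ell (ι : Type u) : Type u := lp (fun _ : ι => ℝ) 2

/-- Coordinatewise absolute value. -/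
noncomputable def absMap (x : Ell ι) : Ell ι :=
  ⟨fun i => |x i|, (memℓp_norm_iff (f := fun i => x i)).2 (lp.memℓp x)⟩

@[simp] theorem absMap_apply (x : Ell ι) (i : ι) : absMap x i = |x i| := rfl

theorem norm_absMap_sub (x y : Ell ι) : ‖absMap x - absMap y‖ ≤ ‖x - y‖ := by
  refine lp.norm_mono (by norm_num) fun i => ?_
  simp only [lp.coeFn_sub, Pi.sub_apply, absMap_apply, Real.norm_eq_abs]
  exact abs_abs_sub_abs_le_abs_sub _ _

/-- `x ↦ a x + b |x|`. -/
noncomputable def fold (a b : ℝ) (x : Ell ι) : Ell ι := a • x + b • absMap x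

@[simp] theorem fold_apply (a b : ℝ) (x : Ell ι) (i : ι) : fold a b x i = a * x i + b * |x i| := rfl

theorem fold_lipschitz (a b : ℝ) :
    LipschitzWith (Real.toNNReal (|a| + |b|)) (fold a b : Ell ι → Ell ι) := by
  refine LipschitzWith.of_dist_le_mul fun x y => ?_
  rw [dist_eq_norm, dist_eq_norm, Real.coe_toNNReal _ (by positivity)]
  have e : fold a b x - fold a b y = a • (x - y) + b • (absMap x - absMap y) := by
    unfold fold; module
  rw [e]
  calc ‖a • (x - y) + b • (absMap x - absMap y)‖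
      ≤ ‖a • (x - y)‖ + ‖b • (absMap x - absMap y)‖ := norm_add_le _ _
    _ = |a| * ‖x - y‖ + |b| * ‖absMap x - absMap y‖ := by
        rw [norm_smul, norm_smul, Real.norm_eq_abs, Real.norm_eq_abs]
    _ ≤ |a| * ‖x - y‖ + |b| * ‖x - y‖ := by
        gcongr
        exact norm_absMap_sub x y
    _ = (|a| + |b|) * ‖x - y‖ := by ring

/-- The Lipschitz homeomorphism `φ(x)_γ = x_γ + |x_γ| / 2`. -/
noncomputable def phi (ι : Type u) : Ell ι ≃ Ell ι where
  toFun := fold 1 (1 / 2)
  invFun := fold (4 / 3) (-2 / 3)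
  left_inv x := by
    ext i
    simp only [fold_apply]
    rcases le_total 0 (x i) with h | h
    · rw [abs_of_nonneg h, abs_of_nonneg (by linarith)]; ring
    · rw [abs_of_nonpos h, abs_of_nonpos (by linarith)]; ring
  right_inv x := by
    ext i
    simp only [fold_apply]
    rcases le_total 0 (x i) with h | h
    · rw [abs_of_nonneg h, abs_of_nonneg (by linarith)]; ring
    · rw [abs_of_nonpos h, abs_of_nonpos (by linarith)]; ring

theorem phi_apply (x : Ell ι) (i : ι) : phi ι x i = x i + 1 / 2 * |x i| := by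
  simp [phi]

theorem phi_isLipschitzHomeo : IsLipschitzHomeo (phi ι) :=
  ⟨⟨_, fold_lipschitz 1 (1 / 2)⟩, ⟨_, fold_lipschitz (4 / 3) (-2 / 3)⟩⟩

theorem exists_zero_coord [Uncountable ι] (x : Ell ι) : ∃ i, x i = 0 := by
  by_contra hne
  push Not at hne
  have hs : Summable fun i => ‖x i‖ ^ (2 : ℝ≥0∞).toReal := (lp.memℓp x).summable (by norm_num)
  have hc := hs.countable_support
  have : Function.support (fun i => ‖x i‖ ^ (2 : ℝ≥0∞).toReal) = Set.univ := by
    ext i
    simp [hne i]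
  rw [this] at hc
  exact not_countable (Set.countable_univ_iff.1 hc)

theorem phi_not_gateaux [Uncountable ι] (x : Ell ι) : ¬ GateauxDifferentiableAt (phi ι) x := by
  classical
  rintro ⟨T, hT⟩
  obtain ⟨i, hi⟩ := exists_zero_coord x
  have h1 := hT (lp.single 2 i (1 : ℝ))
  have hev : Continuous (fun y : Ell ι => y i) := by
    exact (lp.evalCLM ℝ (fun _ : ι => ℝ) 2 i).continuous
  have h2 := (hev.tendsto _).comp h1
  set L := T (lp.single 2 i (1 : ℝ)) i with hL
  have h3 : Tendsto (fun t : ℝ => t⁻¹ * (t + 1 / 2 * |t|)) (𝓝[≠] 0) (𝓝 L) := by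
    refine h2.congr fun t => ?_
    simp only [Function.comp, lp.coeFn_smul, Pi.smul_apply, lp.coeFn_sub, Pi.sub_apply, phi_apply,
      lp.coeFn_add, Pi.add_apply, hi, smul_eq_mul, lp.single_apply_self]
    simp
  have h4 : Tendsto (fun t : ℝ => t⁻¹ * (t + 1 / 2 * |t|)) (𝓝[>] 0) (𝓝 L) :=
    h3.mono_left (nhdsWithin_mono _ (fun t ht => ne_of_gt ht))
  have h5 : Tendsto (fun t : ℝ => t⁻¹ * (t + 1 / 2 * |t|)) (𝓝[<] 0) (𝓝 L) :=
    h3.mono_left (nhdsWithin_mono _ (fun t ht => ne_of_lt ht))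
  have h6 : Tendsto (fun t : ℝ => t⁻¹ * (t + 1 / 2 * |t|)) (𝓝[>] 0) (𝓝 (3 / 2)) := by
    refine tendsto_const_nhds.congr' ?_
    filter_upwards [self_mem_nhdsWithin] with t ht
    have ht : (0 : ℝ) < t := ht
    rw [abs_of_pos ht]
    field_simp
    norm_num
  have h7 : Tendsto (fun t : ℝ => t⁻¹ * (t + 1 / 2 * |t|)) (𝓝[<] 0) (𝓝 (1 / 2)) := by
    refine tendsto_const_nhds.congr' ?_
    filter_upwards [self_mem_nhdsWithin] with t ht
    have ht : t < 0 := ht
    rw [abs_of_neg ht]
    have : t ≠ 0 := ht.ne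
    field_simp
    norm_num
  have e1 := tendsto_nhds_unique h4 h6
  have e2 := tendsto_nhds_unique h5 h7
  linarith

theorem not_separable [Uncountable ι] : ¬ TopologicalSpace.SeparableSpace (Ell ι) := by
  classical
  intro hsep
  have hc : (Set.univ : Set ι).Countable := by
    refine Set.PairwiseDisjoint.countable_of_isOpen
      (s := fun i : ι => Metric.ball (lp.single 2 i (1 : ℝ) : Ell ι) (1 / 2)) ?_
      (fun i _ => Metric.isOpen_ball) (fun i _ => ⟨_, Metric.mem_ball_self (by norm_num)⟩)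
    intro i _ j _ hij
    refine Set.disjoint_left.2 fun z hz1 hz2 => ?_
    rw [Metric.mem_ball] at hz1 hz2
    have h1 : dist (lp.single 2 i (1 : ℝ) : Ell ι) (lp.single 2 j (1 : ℝ)) < 1 := by
      calc _ ≤ dist (lp.single 2 i (1 : ℝ) : Ell ι) z + dist z (lp.single 2 j (1 : ℝ)) :=
            dist_triangle _ _ _
        _ < 1 / 2 + 1 / 2 := by rw [dist_comm _ z]; linarith
        _ = 1 := by norm_num
    have h2 := lp.norm_apply_le_norm (p := 2) (by norm_num)
      ((lp.single 2 i (1 : ℝ) - lp.single 2 j (1 : ℝ) : Ell ι)) i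
    rw [dist_eq_norm] at h1
    have h3 : ((lp.single 2 i (1 : ℝ) - lp.single 2 j (1 : ℝ) : Ell ι)) i = 1 := by
      simp only [lp.coeFn_sub, Pi.sub_apply, lp.single_apply_self]
      rw [lp.single_apply_ne _ _ _ hij]
      simp
    rw [h3] at h2
    simp at h2
    linarith
  exact not_countable (Set.countable_univ_iff.1 hc)

end main

/-- For every uncountable set `ι` the (nonseparable, reflexive and superreflexive) Hilbert space
`ℓ₂(ι)` has a Lipschitz homeomorphism onto itself which is Gateaux differentiable at no point. -/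
theorem result (ι : Type u) [Uncountable ι] :
    ¬ TopologicalSpace.SeparableSpace (lp (fun _ : ι => ℝ) 2) ∧
    Reflexive (lp (fun _ : ι => ℝ) 2) ∧
    SuperReflexive.{u, v} (lp (fun _ : ι => ℝ) 2) ∧
    ∃ φ : lp (fun _ : ι => ℝ) 2 ≃ lp (fun _ : ι => ℝ) 2, IsLipschitzHomeo φ ∧
      ∀ x₀ : lp (fun _ : ι => ℝ) 2, ¬ GateauxDifferentiableAt φ x₀ :=
  ⟨not_separable, reflexive_of_inner _, superReflexive_of_inner _, phi ι, phi_isLipschitzHomeo,
    phi_not_gateaux⟩

end Pool.Agent.Results.MP_714461_an.NowhereGateaux
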